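import Mathlib

set_option autoImplicit false

namespace Pool.Agent.Results.MP_033923_lc.EvalLowerBound

open Finset

/-- The total demand `D = d_1 + ... + d_n`. -/
def total {n : ℕ} (d : Fin n → ℕ) : ℕ := ∑ i, d i

/-- `S` is a sequence for the demands `d`: among the positions `1, ..., D` model `i` occurs exactly
`d i` times (the values of `S` outside `1, ..., D` are irrelevant). -/
def IsSeq {n : ℕ} (d : Fin n → ℕ) (S : ℕ → Fin n) : Prop :=
  ∀ i, ((Icc 1 (total d)).filter (fun k => S k = i)).card = d i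

/-- `x_{ik}`: the number of copies of model `i` among the first `k` positions of `S`. -/
def produced {n : ℕ} (S : ℕ → Fin n) (i : Fin n) (k : ℕ) : ℕ :=
  ((Icc 1 k).filter (fun j => S j = i)).card

/-- The total deviation `F(S) = ∑_i ∑_{k=1}^D F_i (x_{ik} - k r_i)`, where `r_i = d_i / D`. -/
noncomputable def totalDeviation {n : ℕ} (d : Fin n → ℕ) (F : Fin n → ℝ → ℝ) (S : ℕ → Fin n) : ℝ :=
  ∑ i, ∑ k ∈ Icc 1 (total d), F i ((produced S i k : ℝ) - k * ((d i : ℝ) / (total d : ℝ)))

/-- `S` is an optimal sequence for the total deviation problem. -/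
def IsOptimal {n : ℕ} (d : Fin n → ℕ) (F : Fin n → ℝ → ℝ) (S : ℕ → Fin n) : Prop :=
  IsSeq d S ∧ ∀ S', IsSeq d S' → totalDeviation d F S ≤ totalDeviation d F S'

/-- The deviation functions allowed in the problem: each `F_i` is convex with `F_i(0) = 0` and
`F_i(x) > 0` for `x ≠ 0`. -/
def Admissible {n : ℕ} (F : Fin n → ℝ → ℝ) : Prop :=
  ∀ i, ConvexOn ℝ Set.univ (F i) ∧ F i 0 = 0 ∧ ∀ x, x ≠ 0 → 0 < F i x

/-- All the `F_i` are even functions (the symmetric case). -/
def Symmetric {n : ℕ} (F : Fin n → ℝ → ℝ) : Prop := ∀ i x, F i (-x) = F i x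

/-- A deterministic procedure that can access the functions `F_i` only by evaluating them at
points. It either stops with a result, or asks for the value `F_i x` and continues in a way that
may depend arbitrarily on the answer (all computations between evaluations are free). -/
inductive Proc (n : ℕ) (α : Type) : Type
  | done : α → Proc n α
  | eval : Fin n → ℝ → (ℝ → Proc n α) → Proc n α

/-- The result of a procedure when the functions are `F`. -/
def Proc.output {n : ℕ} {α : Type} (F : Fin n → ℝ → ℝ) : Proc n α → α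
  | .done a => a
  | .eval i x c => Proc.output F (c (F i x))

/-- The number of evaluations that a procedure makes when the functions are `F`. -/
def Proc.evals {n : ℕ} {α : Type} (F : Fin n → ℝ → ℝ) : Proc n α → ℕ
  | .done _ => 0
  | .eval i x c => Proc.evals F (c (F i x)) + 1

/-- An algorithm in the output convention of the problem, for fixed demands: a procedure that
builds a data structure (of an arbitrary type, of arbitrary size) and a query procedure that uses
the data structure to return the model at a given position. -/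
structure Algo (n : ℕ) where
  Data : Type
  build : Proc n Data
  query : Data → ℕ → Proc n (Fin n)

/-- The answer of the algorithm to the query for position `k`. -/
def Algo.answer {n : ℕ} (A : Algo n) (F : Fin n → ℝ → ℝ) (k : ℕ) : Fin n :=
  (A.query (A.build.output F) k).output F

/-- The number of evaluations made by the algorithm for building the data structure and for
answering the query for position `k`. -/
def Algo.evals {n : ℕ} (A : Algo n) (F : Fin n → ℝ → ℝ) (k : ℕ) : ℕ :=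
  A.build.evals F + (A.query (A.build.output F) k).evals F

/-- The algorithm is correct for `d` and `F`: its answers are the entries of one fixed optimal
sequence. -/
def Algo.CorrectFor {n : ℕ} (A : Algo n) (d : Fin n → ℕ) (F : Fin n → ℝ → ℝ) : Prop :=
  ∃ S, IsOptimal d F S ∧ ∀ k ∈ Icc 1 (total d), A.answer F k = S k

/-- The four demands `6m, 1, 1, 1`, with total `6m + 3`. -/
def dem (m : ℕ) : Fin 4 → ℕ := ![6 * m, 1, 1, 1]

/-! ### Locality of procedures -/

/-- The list of evaluation requests. -/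
def Proc.asked {n : ℕ} {α : Type} (F : Fin n → ℝ → ℝ) : Proc n α → List (Fin n × ℝ)
  | .done _ => []
  | .eval i x c => (i, x) :: Proc.asked F (c (F i x))

theorem Proc.length_asked {n : ℕ} {α : Type} (F : Fin n → ℝ → ℝ) (P : Proc n α) :
    (P.asked F).length = P.evals F := by
  induction P with
  | done a => rfl
  | eval i x c ih => simp [Proc.asked, Proc.evals, ih]

theorem Proc.output_congr {n : ℕ} {α : Type} (F F' : Fin n → ℝ → ℝ) (P : Proc n α)
    (h : ∀ q ∈ P.asked F, F' q.1 q.2 = F q.1 q.2) : P.output F' = P.output F := by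
  induction P with
  | done a => rfl
  | eval i x c ih =>
    simp only [Proc.asked, List.mem_cons, forall_eq_or_imp] at h
    simp only [Proc.output, h.1]
    exact ih _ h.2

theorem Algo.answer_congr {n : ℕ} (A : Algo n) (F F' : Fin n → ℝ → ℝ) (k : ℕ)
    (h : ∀ q ∈ A.build.asked F ++ (A.query (A.build.output F) k).asked F,
      F' q.1 q.2 = F q.1 q.2) : A.answer F' k = A.answer F k := by
  have h1 : A.build.output F' = A.build.output F :=
    Proc.output_congr _ _ _ (fun q hq => h q (List.mem_append_left _ hq))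
  unfold Algo.answer
  rw [h1]
  exact Proc.output_congr _ _ _ (fun q hq => h q (List.mem_append_right _ hq))

/-! ### The instance -/

theorem total_dem (m : ℕ) : total (dem m) = 6 * m + 3 := by
  simp [total, dem, Fin.sum_univ_four]

theorem dem_ne_zero (m : ℕ) (i : Fin 4) (hi : i ≠ 0) : dem m i = 1 := by
  fin_cases i <;> simp_all [dem]

theorem dem_zero (m : ℕ) : dem m 0 = 6 * m := rfl

/-- the number of positions among the first `k` ones not used by model zero -/
def others (S : ℕ → Fin 4) (k : ℕ) : ℕ := ((Icc 1 k).filter (fun j => S j ≠ 0)).card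

theorem produced_zero (S : ℕ → Fin 4) (k : ℕ) : produced S 0 k + others S k = k := by
  unfold produced others
  rw [Finset.card_filter_add_card_filter_not]
  simp

theorem others_succ (S : ℕ → Fin 4) (k : ℕ) :
    others S (k + 1) = others S k + (if S (k + 1) ≠ 0 then 1 else 0) := by
  unfold others
  rw [← Finset.insert_Icc_right_eq_Icc_add_one (by omega), Finset.filter_insert]
  split_ifs with h
  · rw [Finset.card_insert_of_notMem (by simp)]
  · simp

theorem exists_pos (m : ℕ) (S : ℕ → Fin 4) (hS : IsSeq (dem m) S) (i : Fin 4) (hi : i ≠ 0) :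
    ∃ t, t ∈ Icc 1 (6 * m + 3) ∧ ∀ k ∈ Icc 1 (6 * m + 3), (S k = i ↔ k = t) := by
  have h := hS i
  rw [dem_ne_zero m i hi, total_dem, Finset.card_eq_one] at h
  obtain ⟨t, ht⟩ := h
  have key : ∀ k, (k ∈ Icc 1 (6 * m + 3) ∧ S k = i) ↔ k = t := by
    intro k
    have h1 : k ∈ (Icc 1 (6 * m + 3)).filter (fun k => S k = i) ↔ k = t := by
      rw [ht, Finset.mem_singleton]
    rwa [Finset.mem_filter] at h1
  refine ⟨t, ((key t).2 rfl).1, fun k hk => ?_⟩
  rw [← key k]
  simp [hk]

/-- indicator -/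
def ind (t k : ℕ) : ℕ := if t ≤ k then 1 else 0

theorem produced_eq_ind (m : ℕ) (S : ℕ → Fin 4) (i : Fin 4) (t : ℕ)
    (ht : t ∈ Icc 1 (6 * m + 3)) (h : ∀ k ∈ Icc 1 (6 * m + 3), (S k = i ↔ k = t))
    (k : ℕ) (hk : k ∈ Icc 1 (6 * m + 3)) : produced S i k = ind t k := by
  unfold produced ind
  rw [Finset.mem_Icc] at ht hk
  split_ifs with htk
  · rw [Finset.card_eq_one]
    refine ⟨t, ?_⟩
    ext j
    rw [Finset.mem_filter, Finset.mem_singleton, Finset.mem_Icc]
    constructor
    · rintro ⟨hj, hj2⟩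
      exact (h j (Finset.mem_Icc.2 ⟨hj.1, by omega⟩)).1 hj2
    · rintro rfl
      exact ⟨⟨ht.1, htk⟩, (h j (Finset.mem_Icc.2 ht)).2 rfl⟩
  · rw [Finset.card_eq_zero, Finset.filter_eq_empty_iff]
    intro j hj hj2
    rw [Finset.mem_Icc] at hj
    have := (h j (Finset.mem_Icc.2 ⟨hj.1, by omega⟩)).1 hj2
    omega

/-- cost of a model of demand one placed at `t` -/
noncomputable def cost1 (m : ℕ) (f : ℝ → ℝ) (t : ℕ) : ℝ :=
  ∑ k ∈ Icc 1 (6 * m + 3), f ((ind t k : ℝ) - k / ((6 * m + 3 : ℕ) : ℝ))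

/-- the part of the total deviation due to model `i` -/
noncomputable def part (m : ℕ) (F : Fin 4 → ℝ → ℝ) (S : ℕ → Fin 4) (i : Fin 4) : ℝ :=
  ∑ k ∈ Icc 1 (6 * m + 3),
    F i ((produced S i k : ℝ) - k * ((dem m i : ℝ) / ((6 * m + 3 : ℕ) : ℝ)))

theorem totalDeviation_eq (m : ℕ) (F : Fin 4 → ℝ → ℝ) (S : ℕ → Fin 4) :
    totalDeviation (dem m) F S = ∑ i, part m F S i := by
  unfold totalDeviation part
  rw [total_dem]

theorem part_eq_cost1 (m : ℕ) (F : Fin 4 → ℝ → ℝ) (S : ℕ → Fin 4) (i : Fin 4) (hi : i ≠ 0) (t : ℕ)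
    (ht : t ∈ Icc 1 (6 * m + 3)) (h : ∀ k ∈ Icc 1 (6 * m + 3), (S k = i ↔ k = t)) :
    part m F S i = cost1 m (F i) t := by
  unfold part cost1
  refine Finset.sum_congr rfl (fun k hk => ?_)
  rw [produced_eq_ind m S i t ht h k hk, dem_ne_zero m i hi]
  congr 1
  push_cast
  ring

theorem part_zero (m : ℕ) (F : Fin 4 → ℝ → ℝ) (S : ℕ → Fin 4) :
    part m F S 0 = ∑ k ∈ Icc 1 (6 * m + 3),
      F 0 (3 * k / ((6 * m + 3 : ℕ) : ℝ) - (others S k : ℝ)) := by
  unfold part
  refine Finset.sum_congr rfl (fun k _ => ?_)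
  congr 1
  have h : (produced S 0 k : ℝ) = (k : ℝ) - (others S k : ℝ) := by
    have := produced_zero S k
    have h2 : ((produced S 0 k + others S k : ℕ) : ℝ) = (k : ℝ) := by rw [this]
    push_cast at h2
    linarith
  rw [h, dem_zero]
  have hD : ((6 * m + 3 : ℕ) : ℝ) ≠ 0 := by positivity
  field_simp
  push_cast
  ring

/-- the round value -/
def ystar (m k : ℕ) : ℕ :=
  if k < m + 1 then 0 else if k < 3 * m + 2 then 1 else if k < 5 * m + 3 then 2 else 3

theorem ystar_gap (m k y : ℕ) (hk : k ∈ Icc 1 (6 * m + 3)) (hy : y ≠ ystar m k) :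
    (3 * (k : ℝ) / ((6 * m + 3 : ℕ) : ℝ) - (ystar m k : ℝ)) ^ 2 + 1 / ((6 * m + 3 : ℕ) : ℝ) ^ 2 ≤
      (3 * (k : ℝ) / ((6 * m + 3 : ℕ) : ℝ) - (y : ℝ)) ^ 2 := by
  have hD : (0 : ℝ) < ((6 * m + 3 : ℕ) : ℝ) := by positivity
  have key : (3 * (k : ℤ) - (ystar m k : ℤ) * (6 * m + 3)) ^ 2 + 1 ≤
      (3 * (k : ℤ) - (y : ℤ) * (6 * m + 3)) ^ 2 := by
    rw [Finset.mem_Icc] at hk
    have hz : |3 * (k : ℤ) - (ystar m k : ℤ) * (6 * m + 3)| ≤ 3 * m := by
      rw [abs_le]
      unfold ystar
      split_ifs <;> constructor <;> push_cast <;> omega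
    have hz' := abs_le.1 hz
    set z := 3 * (k : ℤ) - (ystar m k : ℤ) * (6 * m + 3) with hzdef
    have hw : 3 * (k : ℤ) - (y : ℤ) * (6 * m + 3) =
        z + ((ystar m k : ℤ) - (y : ℤ)) * (6 * m + 3) := by rw [hzdef]; ring
    rw [hw]
    rcases lt_or_gt_of_ne hy with hlt | hgt
    · have h1 : (1 : ℤ) ≤ (ystar m k : ℤ) - (y : ℤ) := by omega
      nlinarith [mul_le_mul_of_nonneg_right h1 (by positivity : (0 : ℤ) ≤ 6 * m + 3)]
    · have h1 : (ystar m k : ℤ) - (y : ℤ) ≤ -1 := by omega
      nlinarith [mul_le_mul_of_nonneg_right h1 (by positivity : (0 : ℤ) ≤ 6 * m + 3)]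
  have key' : (3 * (k : ℝ) - (ystar m k : ℝ) * ((6 * m + 3 : ℕ) : ℝ)) ^ 2 + 1 ≤
      (3 * (k : ℝ) - (y : ℝ) * ((6 * m + 3 : ℕ) : ℝ)) ^ 2 := by
    have := (Int.cast_le (R := ℝ)).2 key
    push_cast at this ⊢
    exact this
  have e1 : (3 * (k : ℝ) / ((6 * m + 3 : ℕ) : ℝ) - (ystar m k : ℝ)) ^ 2 =
      (3 * (k : ℝ) - (ystar m k : ℝ) * ((6 * m + 3 : ℕ) : ℝ)) ^ 2 / ((6 * m + 3 : ℕ) : ℝ) ^ 2 := by
    field_simp
  have e2 : (3 * (k : ℝ) / ((6 * m + 3 : ℕ) : ℝ) - (y : ℝ)) ^ 2 =
      (3 * (k : ℝ) - (y : ℝ) * ((6 * m + 3 : ℕ) : ℝ)) ^ 2 / ((6 * m + 3 : ℕ) : ℝ) ^ 2 := by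
    field_simp
  rw [e1, e2, ← add_div]
  exact div_le_div_of_nonneg_right key' (by positivity)

/-- the reference sequence -/
def refSeq (m : ℕ) (k : ℕ) : Fin 4 :=
  if k = m + 1 then 1 else if k = 3 * m + 2 then 2 else if k = 5 * m + 3 then 3 else 0

theorem others_refSeq (m k : ℕ) : others (refSeq m) k = ystar m k := by
  induction k with
  | zero => simp [others, ystar]
  | succ k ih =>
    rw [others_succ, ih]
    unfold ystar refSeq
    split_ifs <;> simp_all <;> omega

theorem isSeq_refSeq (m : ℕ) : IsSeq (dem m) (refSeq m) := by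
  have h0 : produced (refSeq m) 0 (6 * m + 3) = 6 * m := by
    have h1 := produced_zero (refSeq m) (6 * m + 3)
    rw [others_refSeq] at h1
    have h2 : ystar m (6 * m + 3) = 3 := by
      unfold ystar
      split_ifs <;> omega
    omega
  intro i
  rw [total_dem]
  by_cases hi : i = 0
  · subst hi
    exact h0
  · rw [dem_ne_zero m i hi, Finset.card_eq_one]
    have hcases : i = 1 ∨ i = 2 ∨ i = 3 := by
      fin_cases i <;> simp_all
    rcases hcases with rfl | rfl | rfl
    · refine ⟨m + 1, ?_⟩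
      ext k
      rw [Finset.mem_filter, Finset.mem_Icc, Finset.mem_singleton]
      unfold refSeq
      split_ifs <;> simp <;> omega
    · refine ⟨3 * m + 2, ?_⟩
      ext k
      rw [Finset.mem_filter, Finset.mem_Icc, Finset.mem_singleton]
      unfold refSeq
      split_ifs <;> simp <;> omega
    · refine ⟨5 * m + 3, ?_⟩
      ext k
      rw [Finset.mem_filter, Finset.mem_Icc, Finset.mem_singleton]
      unfold refSeq
      split_ifs <;> simp <;> omega

theorem cost1_le (m : ℕ) (f : ℝ → ℝ) (hf : ∀ x, |x| ≤ 1 → f x ≤ 2) (t : ℕ) :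
    cost1 m f t ≤ 2 * ((6 * m + 3 : ℕ) : ℝ) := by
  unfold cost1
  calc ∑ k ∈ Icc 1 (6 * m + 3), f ((ind t k : ℝ) - k / ((6 * m + 3 : ℕ) : ℝ))
      ≤ ∑ _k ∈ Icc 1 (6 * m + 3), (2 : ℝ) := by
        refine Finset.sum_le_sum (fun k hk => hf _ ?_)
        rw [Finset.mem_Icc] at hk
        have hD : (0 : ℝ) < ((6 * m + 3 : ℕ) : ℝ) := by positivity
        have h1 : (k : ℝ) / ((6 * m + 3 : ℕ) : ℝ) ≤ 1 := by
          rw [div_le_one hD]
          exact_mod_cast hk.2
        have h2 : 0 ≤ (k : ℝ) / ((6 * m + 3 : ℕ) : ℝ) := by positivity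
        rw [abs_le]
        unfold ind
        split_ifs <;> constructor <;> simp only [Nat.cast_one, Nat.cast_zero] <;> linarith
    _ = 2 * ((6 * m + 3 : ℕ) : ℝ) := by
        rw [Finset.sum_const, Nat.card_Icc]
        simp
        ring

theorem part_nonneg (m : ℕ) (F : Fin 4 → ℝ → ℝ) (hF : Admissible F) (S : ℕ → Fin 4) (i : Fin 4) :
    0 ≤ part m F S i := by
  unfold part
  refine Finset.sum_nonneg (fun k _ => ?_)
  obtain ⟨_, h0, hpos⟩ := hF i
  by_cases hx : ((produced S i k : ℝ) - k * ((dem m i : ℝ) / ((6 * m + 3 : ℕ) : ℝ))) = 0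
  · rw [hx, h0]
  · exact (hpos _ hx).le

/-- The assumptions on `F` used in the lower bound. -/
structure Good (m : ℕ) (F : Fin 4 → ℝ → ℝ) : Prop where
  adm : Admissible F
  symm : Symmetric F
  zero : ∀ x, F 0 x = 7 * ((6 * m + 3 : ℕ) : ℝ) ^ 3 * x ^ 2
  bound : ∀ i, i ≠ 0 → ∀ x, |x| ≤ 1 → F i x ≤ 2

theorem others_eq_of_optimal (m : ℕ) (F : Fin 4 → ℝ → ℝ) (hF : Good m F) (S : ℕ → Fin 4)
    (hS : IsOptimal (dem m) F S) (k : ℕ) (hk : k ∈ Icc 1 (6 * m + 3)) :
    others S k = ystar m k := by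
  by_contra hne
  have hD : (0 : ℝ) < ((6 * m + 3 : ℕ) : ℝ) := by positivity
  set D : ℝ := ((6 * m + 3 : ℕ) : ℝ) with hDdef
  -- the reference cost
  have href : totalDeviation (dem m) F (refSeq m) ≤
      7 * D ^ 3 * (∑ k ∈ Icc 1 (6 * m + 3), (3 * (k : ℝ) / D - (ystar m k : ℝ)) ^ 2) + 6 * D := by
    rw [totalDeviation_eq, Fin.sum_univ_four]
    have h0 : part m F (refSeq m) 0 =
        7 * D ^ 3 * (∑ k ∈ Icc 1 (6 * m + 3), (3 * (k : ℝ) / D - (ystar m k : ℝ)) ^ 2) := by
      rw [part_zero, Finset.mul_sum]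
      refine Finset.sum_congr rfl (fun k _ => ?_)
      rw [hF.zero, others_refSeq]
    have hpart : ∀ i : Fin 4, i ≠ 0 → part m F (refSeq m) i ≤ 2 * D := by
      intro i hi
      obtain ⟨t, ht, h⟩ := exists_pos m (refSeq m) (isSeq_refSeq m) i hi
      rw [part_eq_cost1 m F (refSeq m) i hi t ht h]
      exact cost1_le m (F i) (hF.bound i hi) t
    have h1 := hpart 1 (by decide)
    have h2 := hpart 2 (by decide)
    have h3 := hpart 3 (by decide)
    linarith
  -- the cost of S
  have hScost : 7 * D ^ 3 * (∑ k ∈ Icc 1 (6 * m + 3), (3 * (k : ℝ) / D - (others S k : ℝ)) ^ 2) ≤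
      totalDeviation (dem m) F S := by
    rw [totalDeviation_eq, Fin.sum_univ_four]
    have h0 : part m F S 0 =
        7 * D ^ 3 * (∑ k ∈ Icc 1 (6 * m + 3), (3 * (k : ℝ) / D - (others S k : ℝ)) ^ 2) := by
      rw [part_zero, Finset.mul_sum]
      refine Finset.sum_congr rfl (fun k _ => ?_)
      rw [hF.zero]
    have h1 := part_nonneg m F hF.adm S 1
    have h2 := part_nonneg m F hF.adm S 2
    have h3 := part_nonneg m F hF.adm S 3
    linarith
  have hgap : (∑ k ∈ Icc 1 (6 * m + 3), (3 * (k : ℝ) / D - (ystar m k : ℝ)) ^ 2) + 1 / D ^ 2 ≤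
      ∑ k ∈ Icc 1 (6 * m + 3), (3 * (k : ℝ) / D - (others S k : ℝ)) ^ 2 := by
    rw [← Finset.add_sum_erase _ _ hk, ← Finset.add_sum_erase _ _ hk]
    have h1 := ystar_gap m k (others S k) hk hne
    have h2 : ∑ x ∈ (Icc 1 (6 * m + 3)).erase k, (3 * (x : ℝ) / D - (ystar m x : ℝ)) ^ 2 ≤
        ∑ x ∈ (Icc 1 (6 * m + 3)).erase k, (3 * (x : ℝ) / D - (others S x : ℝ)) ^ 2 := by
      refine Finset.sum_le_sum (fun x hx => ?_)
      by_cases hxe : others S x = ystar m x
      · rw [hxe]
      · have h3 := ystar_gap m x (others S x) (Finset.mem_of_mem_erase hx) hxe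
        have h4 : (0 : ℝ) ≤ 1 / ((6 * m + 3 : ℕ) : ℝ) ^ 2 := by positivity
        linarith
    linarith
  have hopt := hS.2 (refSeq m) (isSeq_refSeq m)
  have hmul := mul_le_mul_of_nonneg_left hgap (by positivity : (0 : ℝ) ≤ 7 * D ^ 3)
  have hfin : 7 * D ^ 3 * (1 / D ^ 2) ≤ 6 * D := by
    rw [mul_add] at hmul
    linarith
  have : 7 * D ^ 3 * (1 / D ^ 2) = 7 * D := by
    field_simp
  linarith

theorem nonzero_iff_of_optimal (m : ℕ) (F : Fin 4 → ℝ → ℝ) (hF : Good m F) (S : ℕ → Fin 4)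
    (hS : IsOptimal (dem m) F S) (k : ℕ) (hk : k ∈ Icc 1 (6 * m + 3)) :
    S k ≠ 0 ↔ (k = m + 1 ∨ k = 3 * m + 2 ∨ k = 5 * m + 3) := by
  have hk' := Finset.mem_Icc.1 hk
  obtain ⟨j, rfl⟩ : ∃ j, k = j + 1 := ⟨k - 1, by omega⟩
  have h1 := others_succ S j
  rw [others_eq_of_optimal m F hF S hS _ hk] at h1
  have h2 : others S j = ystar m j := by
    rcases Nat.eq_zero_or_pos j with rfl | hj
    · simp [others, ystar]
    · exact others_eq_of_optimal m F hF S hS j (Finset.mem_Icc.2 ⟨hj, by omega⟩)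
  rw [h2] at h1
  unfold ystar at h1
  constructor
  · intro h
    rw [if_pos h] at h1
    split_ifs at h1 <;> omega
  · intro h h0
    rw [if_neg (not_not.2 h0)] at h1
    split_ifs at h1 <;> omega

/-- the decisive sum -/
noncomputable def delta (m : ℕ) (f : ℝ → ℝ) : ℝ :=
  ∑ k ∈ Icc (m + 1) (3 * m + 1),
    (f (1 - k / ((6 * m + 3 : ℕ) : ℝ)) - f (k / ((6 * m + 3 : ℕ) : ℝ)))

theorem cost1_first (m : ℕ) (f : ℝ → ℝ) (hf : ∀ x, f (-x) = f x) :
    cost1 m f (m + 1) = cost1 m f (3 * m + 2) + delta m f := by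
  rw [← sub_eq_iff_eq_add']
  unfold cost1 delta
  rw [← Finset.sum_sub_distrib]
  symm
  refine Finset.sum_subset_zero_on_sdiff ?_ ?_ ?_
  · intro k hk
    rw [Finset.mem_Icc] at hk ⊢
    omega
  · intro k hk
    rw [Finset.mem_sdiff, Finset.mem_Icc, Finset.mem_Icc] at hk
    have h1 : ind (m + 1) k = ind (3 * m + 2) k := by
      unfold ind
      split_ifs <;> omega
    rw [h1, sub_self]
  · intro k hk
    rw [Finset.mem_Icc] at hk
    have h1 : ind (m + 1) k = 1 := by unfold ind; rw [if_pos]; omega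
    have h2 : ind (3 * m + 2) k = 0 := by unfold ind; rw [if_neg]; omega
    rw [h1, h2, Nat.cast_one, Nat.cast_zero, zero_sub, hf]

theorem cost1_last (m : ℕ) (f : ℝ → ℝ) (hf : ∀ x, f (-x) = f x) :
    cost1 m f (5 * m + 3) = cost1 m f (3 * m + 2) + delta m f := by
  have hD : (0 : ℝ) < ((6 * m + 3 : ℕ) : ℝ) := by positivity
  rw [← sub_eq_iff_eq_add']
  unfold cost1 delta
  rw [← Finset.sum_sub_distrib]
  have hmid : ∑ k ∈ Icc (m + 1) (3 * m + 1),
      (f (1 - k / ((6 * m + 3 : ℕ) : ℝ)) - f (k / ((6 * m + 3 : ℕ) : ℝ))) =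
      ∑ k ∈ Icc (3 * m + 2) (5 * m + 2),
        (f (- (k / ((6 * m + 3 : ℕ) : ℝ))) - f (1 - k / ((6 * m + 3 : ℕ) : ℝ))) := by
    refine Finset.sum_nbij' (fun k => 6 * m + 3 - k) (fun k => 6 * m + 3 - k) ?_ ?_ ?_ ?_ ?_
    · intro k hk
      rw [Finset.mem_Icc] at hk ⊢
      omega
    · intro k hk
      rw [Finset.mem_Icc] at hk ⊢
      omega
    · intro k hk
      rw [Finset.mem_Icc] at hk
      omega
    · intro k hk
      rw [Finset.mem_Icc] at hk
      omega
    · intro k hk
      rw [Finset.mem_Icc] at hk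
      have hc : (((6 * m + 3 - k : ℕ)) : ℝ) = ((6 * m + 3 : ℕ) : ℝ) - (k : ℝ) := by
        rw [Nat.cast_sub (by omega)]
      rw [hc, sub_div, div_self hD.ne', hf]
      congr 2
      ring
  rw [hmid]
  symm
  refine Finset.sum_subset_zero_on_sdiff ?_ ?_ ?_
  · intro k hk
    rw [Finset.mem_Icc] at hk ⊢
    omega
  · intro k hk
    rw [Finset.mem_sdiff, Finset.mem_Icc, Finset.mem_Icc] at hk
    have h1 : ind (5 * m + 3) k = ind (3 * m + 2) k := by
      unfold ind
      split_ifs <;> omega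
    rw [h1, sub_self]
  · intro k hk
    rw [Finset.mem_Icc] at hk
    have h1 : ind (5 * m + 3) k = 0 := by unfold ind; rw [if_neg]; omega
    have h2 : ind (3 * m + 2) k = 1 := by unfold ind; rw [if_pos]; omega
    rw [h1, h2, Nat.cast_one, Nat.cast_zero, zero_sub]

theorem produced_swap (S : ℕ → Fin 4) (i j l : Fin 4) (k : ℕ) :
    produced (fun k => Equiv.swap i j (S k)) l k = produced S (Equiv.swap i j l) k := by
  unfold produced
  congr 1
  ext x
  simp only [Finset.mem_filter, and_congr_right_iff]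
  intro _
  rw [Equiv.swap_apply_eq_iff]

theorem isSeq_swap (m : ℕ) (S : ℕ → Fin 4) (hS : IsSeq (dem m) S) (i j : Fin 4) (hi : i ≠ 0)
    (hj : j ≠ 0) : IsSeq (dem m) (fun k => Equiv.swap i j (S k)) := by
  intro l
  have h1 := produced_swap S i j l (total (dem m))
  unfold produced at h1
  rw [h1, hS]
  by_cases hli : l = i
  · subst hli
    rw [Equiv.swap_apply_left, dem_ne_zero m _ hi, dem_ne_zero m _ hj]
  · by_cases hlj : l = j
    · subst hlj
      rw [Equiv.swap_apply_right, dem_ne_zero m _ hi, dem_ne_zero m _ hj]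
    · rw [Equiv.swap_apply_of_ne_of_ne hli hlj]

theorem delta_le_of_middle (m : ℕ) (F : Fin 4 → ℝ → ℝ) (hF : Good m F) (S : ℕ → Fin 4)
    (hS : IsOptimal (dem m) F S) (i j : Fin 4) (hi : i ≠ 0) (hj : j ≠ 0) (hij : i ≠ j)
    (hmid : S (3 * m + 2) = i) : delta m (F j) ≤ delta m (F i) := by
  obtain ⟨ti, hti, hti2⟩ := exists_pos m S hS.1 i hi
  obtain ⟨tj, htj, htj2⟩ := exists_pos m S hS.1 j hj
  have hp2 : 3 * m + 2 ∈ Icc 1 (6 * m + 3) := by
    rw [Finset.mem_Icc]; omega
  have hti' : ti = 3 * m + 2 := ((hti2 _ hp2).1 hmid).symm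
  subst hti'
  have hSj : S tj = j := (htj2 tj htj).2 rfl
  have htj' : tj = m + 1 ∨ tj = 5 * m + 3 := by
    have h1 : S tj ≠ 0 := by rw [hSj]; exact hj
    rcases (nonzero_iff_of_optimal m F hF S hS tj htj).1 h1 with h | h | h
    · exact Or.inl h
    · exfalso
      rw [h] at hSj
      exact hij (hmid.symm.trans hSj)
    · exact Or.inr h
  set S' : ℕ → Fin 4 := fun k => Equiv.swap i j (S k) with hS'
  have hopt := hS.2 S' (isSeq_swap m S hS.1 i j hi hj)
  rw [totalDeviation_eq, totalDeviation_eq] at hopt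
  have e1 : ∀ l, part m F S' l = ∑ k ∈ Icc 1 (6 * m + 3),
    F l ((produced S (Equiv.swap i j l) k : ℝ) - k * ((dem m l : ℝ) / ((6 * m + 3 : ℕ) : ℝ))) := by
    intro l
    unfold part
    refine Finset.sum_congr rfl (fun k _ => ?_)
    rw [hS', produced_swap]
  have esplit : ∀ T : ℕ → Fin 4, ∑ l, part m F T l =
      part m F T i + part m F T j + ∑ l ∈ (univ.erase i).erase j, part m F T l := by
    intro T
    rw [← Finset.add_sum_erase univ (part m F T) (Finset.mem_univ i),
      ← Finset.add_sum_erase (univ.erase i) (part m F T)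
        (Finset.mem_erase.2 ⟨hij.symm, Finset.mem_univ j⟩), add_assoc]
  rw [esplit S, esplit S'] at hopt
  have erest : ∑ l ∈ (univ.erase i).erase j, part m F S' l =
      ∑ l ∈ (univ.erase i).erase j, part m F S l := by
    refine Finset.sum_congr rfl (fun l hl => ?_)
    rw [Finset.mem_erase, Finset.mem_erase] at hl
    rw [e1, Equiv.swap_apply_of_ne_of_ne hl.2.1 hl.1]
    rfl
  rw [erest] at hopt
  have hi1 : part m F S i = cost1 m (F i) (3 * m + 2) :=
    part_eq_cost1 m F S i hi _ hti hti2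
  have hj1 : part m F S j = cost1 m (F j) tj :=
    part_eq_cost1 m F S j hj _ htj htj2
  have hi2 : part m F S' i = cost1 m (F i) tj := by
    refine part_eq_cost1 m F S' i hi _ htj (fun k hk => ?_)
    rw [← htj2 k hk, hS']
    simp only
    rw [Equiv.swap_apply_eq_iff, Equiv.swap_apply_left]
  have hj2 : part m F S' j = cost1 m (F j) (3 * m + 2) := by
    refine part_eq_cost1 m F S' j hj _ hti (fun k hk => ?_)
    rw [← hti2 k hk, hS']
    simp only
    rw [Equiv.swap_apply_eq_iff, Equiv.swap_apply_right]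
  rw [hi1, hj1, hi2, hj2] at hopt
  rcases htj' with rfl | rfl
  · rw [cost1_first m (F j) (hF.symm j), cost1_first m (F i) (hF.symm i)] at hopt
    linarith
  · rw [cost1_last m (F j) (hF.symm j), cost1_last m (F i) (hF.symm i)] at hopt
    linarith

/-! ### The adversary -/

/-- a slightly raised square -/
noncomputable def bump (a δ : ℝ) (x : ℝ) : ℝ := max (x ^ 2) (2 * a * |x| - a ^ 2 + δ ^ 2)

theorem le_bump (a δ x : ℝ) : x ^ 2 ≤ bump a δ x := le_max_left _ _

theorem bump_eq_of_far (a δ x : ℝ) (hδ : 0 ≤ δ) (h : δ ≤ |(|x| - a)|) : bump a δ x = x ^ 2 := by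
  unfold bump
  apply max_eq_left
  have h1 : δ ^ 2 ≤ (|x| - a) ^ 2 := by
    rw [← sq_abs (|x| - a)]
    exact pow_le_pow_left₀ hδ h 2
  have h2 : |x| ^ 2 = x ^ 2 := sq_abs x
  nlinarith

theorem bump_self (a δ : ℝ) (ha : 0 ≤ a) : a ^ 2 + δ ^ 2 ≤ bump a δ a := by
  unfold bump
  rw [abs_of_nonneg ha]
  refine le_trans (le_of_eq ?_) (le_max_right _ _)
  ring

theorem convexOn_sq : ConvexOn ℝ Set.univ (fun x : ℝ => x ^ 2) := Even.convexOn_pow (by decide)

theorem convexOn_bump (a δ : ℝ) (ha : 0 ≤ a) : ConvexOn ℝ Set.univ (bump a δ) := by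
  have h1 : ConvexOn ℝ Set.univ (fun x : ℝ => 2 * a * |x| - a ^ 2 + δ ^ 2) := by
    have h2 : ConvexOn ℝ Set.univ (fun x : ℝ => |x|) := by
      refine ⟨convex_univ, fun x _ y _ s t hs ht _ => ?_⟩
      simp only [smul_eq_mul]
      calc |s * x + t * y| ≤ |s * x| + |t * y| := abs_add_le _ _
        _ = s * |x| + t * |y| := by rw [abs_mul, abs_mul, abs_of_nonneg hs, abs_of_nonneg ht]
    have h3 : ConvexOn ℝ Set.univ (fun x : ℝ => (2 * a) • |x|) :=
      h2.smul (by positivity)
    have h4 := (h3.add_const (-a ^ 2 + δ ^ 2))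
    refine h4.congr (fun x _ => ?_)
    simp only [Pi.add_apply, smul_eq_mul]
    ring
  exact convexOn_sq.sup h1

/-- the base functions -/
noncomputable def base (m : ℕ) : Fin 4 → ℝ → ℝ :=
  ![fun x => 7 * ((6 * m + 3 : ℕ) : ℝ) ^ 3 * x ^ 2, fun x => x ^ 2, fun x => x ^ 2,
    fun x => (1 / 2) * x ^ 2]

theorem convexOn_mul_sq (c : ℝ) (hc : 0 ≤ c) : ConvexOn ℝ Set.univ (fun x : ℝ => c * x ^ 2) := by
  have := convexOn_sq.smul hc
  simpa [smul_eq_mul] using this

theorem abs_sq_le (x : ℝ) (hx : |x| ≤ 1) : x ^ 2 ≤ 1 := by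
  rw [← sq_abs]
  exact pow_le_one₀ (abs_nonneg x) hx

theorem good_base (m : ℕ) : Good m (base m) where
  adm := by
    intro i
    fin_cases i
    · refine ⟨convexOn_mul_sq _ (by positivity), by simp [base], fun x hx => ?_⟩
      change 0 < 7 * ((6 * m + 3 : ℕ) : ℝ) ^ 3 * x ^ 2
      positivity
    · refine ⟨convexOn_sq, by simp [base], fun x hx => ?_⟩
      change 0 < x ^ 2
      positivity
    · refine ⟨convexOn_sq, by simp [base], fun x hx => ?_⟩
      change 0 < x ^ 2
      positivity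
    · refine ⟨convexOn_mul_sq _ (by positivity), by simp [base], fun x hx => ?_⟩
      change 0 < (1 / 2) * x ^ 2
      positivity
  symm := by
    intro i x
    fin_cases i <;> simp [base]
  zero := fun x => rfl
  bound := by
    intro i hi x hx
    have h := abs_sq_le x hx
    fin_cases i
    · exact absurd rfl hi
    · change x ^ 2 ≤ 2
      linarith
    · change x ^ 2 ≤ 2
      linarith
    · change (1 / 2) * x ^ 2 ≤ 2
      linarith

theorem good_update (m : ℕ) (j : Fin 4) (hj : j ≠ 0) (a δ : ℝ) (hδ : 0 ≤ δ) (hδa : δ ≤ a)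
    (ha : a ≤ 1) : Good m (Function.update (base m) j (bump a δ)) where
  adm := by
    intro i
    by_cases hij : i = j
    · subst hij
      rw [Function.update_self]
      refine ⟨convexOn_bump a δ (hδ.trans hδa), ?_, fun x hx => ?_⟩
      · rw [bump_eq_of_far a δ 0 hδ]
        · simp
        · rw [abs_zero, zero_sub, abs_neg]
          exact hδa.trans (le_abs_self a)
      · exact lt_of_lt_of_le (by positivity) (le_bump a δ x)
    · rw [Function.update_of_ne hij]
      exact (good_base m).adm i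
  symm := by
    intro i x
    by_cases hij : i = j
    · subst hij
      rw [Function.update_self]
      unfold bump
      rw [abs_neg, neg_sq]
    · rw [Function.update_of_ne hij]
      exact (good_base m).symm i x
  zero := by
    intro x
    rw [Function.update_of_ne (Ne.symm hj)]
    rfl
  bound := by
    intro i hi x hx
    by_cases hij : i = j
    · subst hij
      rw [Function.update_self]
      unfold bump
      have h0 : 0 ≤ |x| := abs_nonneg x
      apply max_le
      · have h := abs_sq_le x hx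
        linarith
      · nlinarith
    · rw [Function.update_of_ne hij]
      exact (good_base m).bound i hi x hx

theorem exists_far (a : ℝ) (L : List ℝ) (h : ∀ x ∈ L, x ≠ a) :
    ∃ δ : ℝ, 0 < δ ∧ ∀ x ∈ L, δ ≤ |x - a| := by
  induction L with
  | nil => exact ⟨1, one_pos, by simp⟩
  | cons y L ih =>
    obtain ⟨δ, hδ, h2⟩ := ih (fun x hx => h x (List.mem_cons_of_mem _ hx))
    refine ⟨min δ |y - a|, lt_min hδ (abs_pos.2 (sub_ne_zero.2 (h y List.mem_cons_self))), ?_⟩
    intro x hx
    rcases List.mem_cons.1 hx with rfl | hx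
    · exact min_le_right _ _
    · exact (min_le_left _ _).trans (h2 x hx)

theorem delta_sq_pos (m : ℕ) : 0 < delta m (fun x => x ^ 2) := by
  unfold delta
  have hD : (0 : ℝ) < ((6 * m + 3 : ℕ) : ℝ) := by positivity
  refine Finset.sum_pos (fun k hk => ?_) ⟨m + 1, Finset.mem_Icc.2 ⟨le_refl _, by omega⟩⟩
  rw [Finset.mem_Icc] at hk
  have h1 : 2 * ((k : ℝ) / ((6 * m + 3 : ℕ) : ℝ)) < 1 := by
    rw [← mul_div_assoc, div_lt_one hD]
    have : 2 * k < 6 * m + 3 := by omega
    exact_mod_cast this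
  nlinarith

theorem delta_half (m : ℕ) :
    delta m (fun x => (1 / 2) * x ^ 2) = (1 / 2) * delta m (fun x => x ^ 2) := by
  unfold delta
  rw [Finset.mul_sum]
  exact Finset.sum_congr rfl (fun k _ => by ring)

theorem delta_bump (m : ℕ) (k : ℕ) (hk : k ∈ Icc (m + 1) (3 * m + 1)) (δ : ℝ) (hδ : 0 < δ)
    (hδ' : δ ≤ 1 / ((6 * m + 3 : ℕ) : ℝ)) :
    delta m (fun x => x ^ 2) < delta m (bump (1 - k / ((6 * m + 3 : ℕ) : ℝ)) δ) := by
  have hD : (0 : ℝ) < ((6 * m + 3 : ℕ) : ℝ) := by positivity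
  set D : ℝ := ((6 * m + 3 : ℕ) : ℝ) with hDdef
  have hk' := Finset.mem_Icc.1 hk
  have hfar : ∀ l ∈ Icc (m + 1) (3 * m + 1), bump (1 - k / D) δ (l / D) = (l / D) ^ 2 := by
    intro l hl
    rw [Finset.mem_Icc] at hl
    apply bump_eq_of_far _ _ _ hδ.le
    have h0 : (0 : ℝ) ≤ l / D := by positivity
    rw [abs_of_nonneg h0, abs_sub_comm]
    refine le_trans ?_ (le_abs_self _)
    refine hδ'.trans ?_
    have h2 : (k : ℝ) + l + 1 ≤ D := by
      have : k + l + 1 ≤ 6 * m + 3 := by omega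
      rw [hDdef]
      exact_mod_cast this
    have h3 : 1 - (k : ℝ) / D - l / D = (D - k - l) / D := by field_simp
    rw [h3]
    exact div_le_div_of_nonneg_right (by linarith) hD.le
  unfold delta
  refine Finset.sum_lt_sum (fun l hl => ?_) ⟨k, hk, ?_⟩
  · rw [hfar l hl]
    have := le_bump (1 - k / D) δ (1 - l / D)
    linarith
  · rw [hfar k hk]
    have ha : 0 ≤ 1 - (k : ℝ) / D := by
      rw [sub_nonneg, div_le_one hD, hDdef]
      have : k ≤ 6 * m + 3 := by omega
      exact_mod_cast this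
    have h1 := bump_self (1 - k / D) δ ha
    have h2 : 0 < δ ^ 2 := by positivity
    linarith

theorem lower_bound (m : ℕ) (A : Algo 4)
    (hA : ∀ F, Admissible F → Symmetric F → A.CorrectFor (dem m) F) :
    2 * m + 1 ≤ A.evals (base m) (3 * m + 2) := by
  by_contra hlt
  push Not at hlt
  have hD : (0 : ℝ) < ((6 * m + 3 : ℕ) : ℝ) := by positivity
  have hp2 : 3 * m + 2 ∈ Icc 1 (total (dem m)) := by
    rw [total_dem, Finset.mem_Icc]; omega
  have hp2' : 3 * m + 2 ∈ Icc 1 (6 * m + 3) := by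
    rw [Finset.mem_Icc]; omega
  set L := A.build.asked (base m) ++
    (A.query (A.build.output (base m)) (3 * m + 2)).asked (base m) with hL
  have hlen : L.length = A.evals (base m) (3 * m + 2) := by
    rw [hL, List.length_append, Proc.length_asked, Proc.length_asked]
    rfl
  -- an evaluation point that was never used
  obtain ⟨k, hk, hkL⟩ : ∃ k ∈ Icc (m + 1) (3 * m + 1),
      (1 - (k : ℝ) / ((6 * m + 3 : ℕ) : ℝ)) ∉ (L.map (fun q => |q.2|)).toFinset := by
    by_contra hcon
    push Not at hcon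
    have h1 : ((Icc (m + 1) (3 * m + 1)).image
        (fun k : ℕ => (1 - (k : ℝ) / ((6 * m + 3 : ℕ) : ℝ)))).card = 2 * m + 1 := by
      rw [Finset.card_image_of_injective]
      · rw [Nat.card_Icc]; omega
      · intro x y hxy
        simp only [sub_right_inj] at hxy
        rw [div_left_inj' hD.ne'] at hxy
        exact_mod_cast hxy
    have h2 : ((Icc (m + 1) (3 * m + 1)).image
        (fun k : ℕ => (1 - (k : ℝ) / ((6 * m + 3 : ℕ) : ℝ)))) ⊆
        (L.map (fun q => |q.2|)).toFinset := by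
      intro x hx
      rw [Finset.mem_image] at hx
      obtain ⟨k, hk, rfl⟩ := hx
      exact hcon k hk
    have h3 := Finset.card_le_card h2
    have h4 := List.toFinset_card_le (L.map (fun q => |q.2|))
    rw [List.length_map, hlen] at h4
    omega
  set a : ℝ := 1 - (k : ℝ) / ((6 * m + 3 : ℕ) : ℝ) with ha
  obtain ⟨δ0, hδ0, hfar0⟩ := exists_far a (L.map (fun q => |q.2|)) (by
    intro x hx hxa
    exact hkL (by rw [← hxa]; exact List.mem_toFinset.2 hx))
  set δ : ℝ := min δ0 (1 / ((6 * m + 3 : ℕ) : ℝ)) with hδdef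
  have hδ : 0 < δ := lt_min hδ0 (by positivity)
  have hδ1 : δ ≤ 1 / ((6 * m + 3 : ℕ) : ℝ) := min_le_right _ _
  have hk' := Finset.mem_Icc.1 hk
  have ha1 : a ≤ 1 := by
    have : 0 ≤ (k : ℝ) / ((6 * m + 3 : ℕ) : ℝ) := by positivity
    linarith
  have hδa : δ ≤ a := by
    refine hδ1.trans ?_
    have h2 : (k : ℝ) + 1 ≤ ((6 * m + 3 : ℕ) : ℝ) := by
      have : k + 1 ≤ 6 * m + 3 := by omega
      exact_mod_cast this
    have h3 : a = (((6 * m + 3 : ℕ) : ℝ) - k) / ((6 * m + 3 : ℕ) : ℝ) := by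
      rw [ha]; field_simp
    rw [h3]
    exact div_le_div_of_nonneg_right (by linarith) hD.le
  -- the answer on the base instance
  have hgood := good_base m
  obtain ⟨S, hSopt, hSans⟩ := hA (base m) hgood.adm hgood.symm
  have hans := hSans _ hp2
  have hne0 : S (3 * m + 2) ≠ 0 :=
    (nonzero_iff_of_optimal m (base m) hgood S hSopt _ hp2').2 (Or.inr (Or.inl rfl))
  have hne3 : S (3 * m + 2) ≠ 3 := by
    intro h3
    have h := delta_le_of_middle m (base m) hgood S hSopt 3 1 (by decide) (by decide) (by decide) h3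
    have h1 : delta m (base m 1) = delta m (fun x => x ^ 2) := rfl
    have h2 : delta m (base m 3) = delta m (fun x => (1 / 2) * x ^ 2) := rfl
    rw [h1, h2, delta_half] at h
    have := delta_sq_pos m
    linarith
  -- the adversary
  have key : ∀ i j : Fin 4, i ≠ 0 → j ≠ 0 → i ≠ j → base m j = (fun x => x ^ 2) →
      base m i = (fun x => x ^ 2) → S (3 * m + 2) ≠ i := by
    intro i j hi hj hij hbj hbi hSi
    have hg := good_update m j hj a δ hδ.le hδa ha1
    obtain ⟨S', hS'opt, hS'ans⟩ := hA _ hg.adm hg.symm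
    have hsame : A.answer (Function.update (base m) j (bump a δ)) (3 * m + 2) =
        A.answer (base m) (3 * m + 2) := by
      apply Algo.answer_congr
      intro q hq
      by_cases hqj : q.1 = j
      · rw [hqj, Function.update_self, hbj]
        apply bump_eq_of_far a δ q.2 hδ.le
        refine (min_le_left _ _).trans ?_
        exact hfar0 _ (List.mem_map.2 ⟨q, hq, rfl⟩)
      · rw [Function.update_of_ne hqj]
    have hS'i : S' (3 * m + 2) = i := by
      rw [← hS'ans _ hp2, hsame, hans, hSi]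
    have h := delta_le_of_middle m _ hg S' hS'opt i j hi hj hij hS'i
    rw [Function.update_self, Function.update_of_ne hij, hbi] at h
    have h2 := delta_bump m k hk δ hδ hδ1
    linarith
  have hne1 : S (3 * m + 2) ≠ 1 := key 1 2 (by decide) (by decide) (by decide) rfl rfl
  have hne2 : S (3 * m + 2) ≠ 2 := key 2 1 (by decide) (by decide) (by decide) rfl rfl
  have hall : ∀ i : Fin 4, i = 0 ∨ i = 1 ∨ i = 2 ∨ i = 3 := by decide
  rcases hall (S (3 * m + 2)) with h | h | h | h
  · exact hne0 h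
  · exact hne1 h
  · exact hne2 h
  · exact hne3 h

/-! ### Growth of polynomials -/

theorem poly_bound (P : Polynomial ℕ) : ∃ c e : ℕ, ∀ x : ℕ, 1 ≤ x → P.eval x ≤ c * x ^ e := by
  induction P using Polynomial.induction_on' with
  | add p q hp hq =>
    obtain ⟨c1, e1, h1⟩ := hp
    obtain ⟨c2, e2, h2⟩ := hq
    refine ⟨c1 + c2, e1 + e2, fun x hx => ?_⟩
    rw [Polynomial.eval_add, add_mul]
    have h3 : x ^ e1 ≤ x ^ (e1 + e2) := Nat.pow_le_pow_right hx (by omega)
    have h4 : x ^ e2 ≤ x ^ (e1 + e2) := Nat.pow_le_pow_right hx (by omega)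
    exact add_le_add ((h1 x hx).trans (Nat.mul_le_mul_left _ h3))
      ((h2 x hx).trans (Nat.mul_le_mul_left _ h4))
  | monomial n a =>
    refine ⟨a, n, fun x _ => ?_⟩
    rw [Polynomial.eval_monomial]

theorem poly_lt_exp (p : MvPolynomial (Fin 2) ℕ) :
    ∃ j : ℕ, 2 ≤ j ∧ MvPolynomial.eval ![4, j + 1] p < 2 ^ j + 1 := by
  set P : Polynomial ℕ := MvPolynomial.aeval ![Polynomial.C 4, Polynomial.X] p with hP
  have hPe : ∀ x : ℕ, P.eval x = MvPolynomial.eval ![4, x] p := by
    intro x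
    rw [hP]
    have h1 : (Polynomial.evalRingHom x) (MvPolynomial.aeval ![Polynomial.C 4, Polynomial.X] p) =
        MvPolynomial.eval ![4, x] p := by
      rw [MvPolynomial.aeval_def, MvPolynomial.hom_eval₂]
      rw [MvPolynomial.eval, MvPolynomial.coe_eval₂Hom]
      congr 1
      · exact Subsingleton.elim _ _
      · funext i
        fin_cases i <;> simp
    exact h1
  obtain ⟨c, e, hce⟩ := poly_bound P
  have hlim := tendsto_pow_const_div_const_pow_of_one_lt e (one_lt_two : (1 : ℝ) < 2)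
  have hev : ∀ᶠ n : ℕ in Filter.atTop, (n : ℝ) ^ e / 2 ^ n < 1 / (2 * ((c : ℝ) + 1)) :=
    hlim.eventually_lt_const (by positivity)
  obtain ⟨N, hN⟩ := Filter.eventually_atTop.1 hev
  refine ⟨N + 2, by omega, ?_⟩
  rw [← hPe]
  refine lt_of_le_of_lt (hce _ (by omega)) ?_
  have h1 := hN (N + 2 + 1) (by omega)
  rw [div_lt_div_iff₀ (by positivity) (by positivity)] at h1
  have h2 : (c : ℝ) * ((N + 2 + 1 : ℕ) : ℝ) ^ e ≤ 2 ^ (N + 2) := by
    have h3 : (0 : ℝ) ≤ ((N + 2 + 1 : ℕ) : ℝ) ^ e := by positivity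
    have h4 : (2 : ℝ) ^ (N + 2 + 1) = 2 * 2 ^ (N + 2) := by ring
    rw [h4] at h1
    nlinarith
  have h5 : c * (N + 2 + 1) ^ e ≤ 2 ^ (N + 2) := by exact_mod_cast h2
  omega

/-- **Negative answer to Q1.** Algorithms access the deviation functions `F_i` only by evaluating
them at points; only these evaluations are counted, everything else is free.

First part: for every `m`, every algorithm that is correct for the demands `(6m, 1, 1, 1)` and all
admissible symmetric `F` makes at least `D / 3` evaluations on some admissible symmetric `F` for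
some query, where `D = 6m + 3` is the total demand.

Second part: there are no polynomial `p` and no family of algorithms (one for each `n ≥ 1` and
each vector `d` of positive demands) that are correct for all admissible symmetric `F` and make at most
`p(n, log D)` evaluations for building the data structure and answering any one query. -/
theorem result :
    (∀ (m : ℕ) (A : Algo 4),
      (∀ F, Admissible F → Symmetric F → A.CorrectFor (dem m) F) →
      ∃ F, Admissible F ∧ Symmetric F ∧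
        ∃ k ∈ Icc 1 (total (dem m)), total (dem m) ≤ 3 * A.evals F k) ∧
    ¬ ∃ (p : MvPolynomial (Fin 2) ℕ) (A : ∀ n : ℕ, (Fin n → ℕ) → Algo n),
      ∀ (n : ℕ) (d : Fin n → ℕ), 0 < n → (∀ i, 0 < d i) →
        ∀ F : Fin n → ℝ → ℝ, Admissible F → Symmetric F →
          (A n d).CorrectFor d F ∧
          ∀ k ∈ Icc 1 (total d),
            (A n d).evals F k ≤ MvPolynomial.eval ![n, Nat.log 2 (total d)] p := by
  refine ⟨fun m A hA => ?_, ?_⟩
  · refine ⟨base m, (good_base m).adm, (good_base m).symm, 3 * m + 2, ?_, ?_⟩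
    · rw [total_dem, Finset.mem_Icc]; omega
    · have := lower_bound m A hA
      rw [total_dem]
      omega
  · rintro ⟨p, A, hA⟩
    obtain ⟨j, hj, hlt⟩ := poly_lt_exp p
    obtain ⟨i, rfl⟩ : ∃ i, j = i + 1 := ⟨j - 1, by omega⟩
    set m := 2 ^ i with hm
    have hmpos : 0 < m := by positivity
    have hpos : ∀ l, 0 < dem m l := by
      intro l
      by_cases hl : l = 0
      · subst hl
        rw [dem_zero]
        omega
      · rw [dem_ne_zero m l hl]
        exact one_pos
    have h1 := lower_bound m (A 4 (dem m))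
      (fun F hF hF' => (hA 4 (dem m) (by norm_num) hpos F hF hF').1)
    have h2 := (hA 4 (dem m) (by norm_num) hpos (base m) (good_base m).adm
      (good_base m).symm).2 (3 * m + 2)
      (by rw [total_dem, Finset.mem_Icc]; omega)
    have hlog : Nat.log 2 (total (dem m)) = i + 1 + 1 := by
      rw [total_dem]
      have hi1 : 2 ≤ m := by
        rw [hm]
        calc 2 = 2 ^ 1 := rfl
          _ ≤ 2 ^ i := Nat.pow_le_pow_right (by norm_num) (by omega)
      have e1 : 2 ^ (i + 1 + 1) = 4 * m := by rw [hm]; ring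
      have e2 : 2 ^ (i + 1 + 1 + 1) = 8 * m := by rw [hm]; ring
      apply Nat.log_eq_of_pow_le_of_lt_pow
      · rw [e1]; omega
      · rw [e2]; omega
    rw [hlog] at h2
    have e3 : 2 ^ (i + 1) = 2 * m := by rw [hm]; ring
    rw [e3] at hlt
    omega

end Pool.Agent.Results.MP_033923_lc.EvalLowerBound
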