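import Pool.Agent.Lib_MP_033923_np.GFin
import Pool.Agent.Lib_MP_033923_np.SymHard

/-!
Just-in-time sequencing with binary-encoded demands (MP_033923_lc), question Q2: for the deviation
functions `w_i |x|` with a fixed sequence of weights (computed in polynomial time) the maximum
deviation problem has a polynomial time algorithm (data structure and position queries) if and only
if P = NP; and if P = NP then it has one for all deviation functions which can be evaluated in
polynomial time.
-/

set_option autoImplicit false

namespace Pool.Agent.Results.MP_033923_lc.MaxDeviationPNP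

open Pool.Agent.JIT

theorem result :
    -- there are positive rational weights `w 0, w 1, ...`, computed in polynomial time (the index
    -- is given in unary), such that for the functions `F i x = w i * |x|` there is an algorithm if
    -- and only if P = NP
    (∃ w : ℕ → ℚ, (∀ i, 0 < w i) ∧ N68a2faeb.IsPolyTime (fun c : List Bool => w c.length) ∧
      ((∃ (build : List ℕ → List Bool) (query : List Bool × ℕ → ℕ),
          PolyTimeAlg build query ∧ SolvesMaxSeq (fun i x => (w i : ℝ) * |x|) build query) ↔
        N68a2faeb.P = N68a2faeb.NP)) ∧
    -- if P = NP then there is an algorithm for all functions evaluated in polynomial time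
    (N68a2faeb.P = N68a2faeb.NP → ∀ F : List Bool → ℝ → ℝ, (∀ c, IsDevFun (F c)) → PolyEval F →
      ∃ (build : List (List Bool × ℕ) → List Bool) (query : List Bool × ℕ → ℕ),
        PolyTimeAlg build query ∧ SolvesMaxFam F build query) :=
  ⟨⟨wtS, wtS_pos, poly_wtS,
    ⟨fun ⟨_, _, hp, hs⟩ => hard_maxW hp hs,
      fun h => Gen.alg_seq h.ge isDevFun_Wstar polyEval_Wstar⟩⟩,
    fun h _ hF hE => Gen.alg_fam h.ge hF hE⟩

end Pool.Agent.Results.MP_033923_lc.MaxDeviationPNP
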