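import Pool.Agent.Lib_MP_033923_np.SymPoly

/-!
Just-in-time sequencing with binary-encoded demands (MP_033923_lc), question Q1: for a fixed
sequence of even deviation functions (computed in polynomial time), a polynomial time algorithm
(data structure and position queries) for the total deviation problem would give P = NP.
-/

set_option autoImplicit false

namespace Pool.Agent.Results.MP_033923_lc.TotalDeviationHard

open Pool.Agent.JIT Finset

theorem result :
    -- there are positive rational numbers `a i` and natural numbers `H i`, computed in polynomial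
    -- time (the index is given in unary), such that for the even functions
    -- `F i x = |x| + H i * max 0 (|x| - a i)` the following holds
    ∃ (a : ℕ → ℚ) (H : ℕ → ℕ) (F : ℕ → ℝ → ℝ),
      (∀ i, 0 < a i) ∧ N68a2faeb.IsPolyTime (fun c : List Bool => a c.length) ∧
      N68a2faeb.IsPolyTime (fun c : List Bool => H c.length) ∧
      (∀ i x, F i x = |x| + (H i : ℝ) * max 0 (|x| - (a i : ℝ))) ∧ (∀ i, IsDevFun (F i)) ∧
      -- every problem in NP is decided by one entry of optimal sequences
      (∀ L ∈ N68a2faeb.NP, ∃ (f : List Bool → List ℕ) (p s : List Bool → ℕ),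
        N68a2faeb.IsPolyTime f ∧ N68a2faeb.IsPolyTime p ∧ N68a2faeb.IsPolyTime s ∧
        ∀ w, f w ≠ [] ∧ (∀ x ∈ f w, 0 < x) ∧ p w ∈ Icc 1 (total (f w).get) ∧
          (∃ S, IsOptimalTotal (f w).get (fun i => F i) S) ∧
          ∀ S, IsOptimalTotal (f w).get (fun i => F i) S →
            ((S (p w) : ℕ) = s w ↔ L w = false)) ∧
      -- an algorithm would give P = NP
      (∀ (build : List ℕ → List Bool) (query : List Bool × ℕ → ℕ),
        PolyTimeAlg build query → SolvesTotalSeq F build query →
        N68a2faeb.P = N68a2faeb.NP) := by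
  refine ⟨aS, penSI, Sstar, aS_pos, poly_aS, poly_penSI, Sstar_form, isDevFun_Sstar,
    fun L hL => ?_, fun _ _ hp hs => hard_totalS hp hs⟩
  obtain ⟨f, p, s, hf, hp, hs, h⟩ := karpM hL
  exact ⟨f, p, s, hf, hp, hs, fun w => ⟨(h w).1, (h w).2.1, (h w).2.2.1, (h w).2.2.2.2.2.1,
    (h w).2.2.2.2.2.2⟩⟩

end Pool.Agent.Results.MP_033923_lc.TotalDeviationHard
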